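import Pool.Agent.Helper569.FaultyDefs
import Pool.Agent.Y237.FL.Gap

open Pool.Agent.Helper569.Faulty

namespace Pool.Agent.Results.MP_75ee99_lc.ExplicitGap

/-- For every detection probability `p` strictly between `0` and `1`: the infimum of the competitive
ratio over the cyclic monotone trajectories is at most `8 + p` and exceeds the infimum over all
trajectories by at least `p ^ 4 (1 - p) ^ 3 / 20`. Moreover every cyclic monotone trajectory of
finite competitive ratio `R` can be replaced by a trajectory whose ratio is smaller by at least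
`p ^ 4 (1 - p) ^ 3 / (2 (R + p))`. -/
theorem result (p : ℝ) (hp0 : 0 < p) (hp1 : p < 1) :
    (⨅ (y : ℕ → ℝ) (_ : IsTrajectory y), competitiveRatio p y) +
        ENNReal.ofReal (p ^ 4 * (1 - p) ^ 3 / 20) ≤
      (⨅ (y : ℕ → ℝ) (_ : IsTrajectory y) (_ : IsCyclicMonotone y), competitiveRatio p y) ∧
    (⨅ (y : ℕ → ℝ) (_ : IsTrajectory y) (_ : IsCyclicMonotone y), competitiveRatio p y) ≤
      ENNReal.ofReal (8 + p) ∧
    ∀ y : ℕ → ℝ, IsTrajectory y → IsCyclicMonotone y → competitiveRatio p y ≠ ⊤ →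
      ∃ y' : ℕ → ℝ, IsTrajectory y' ∧ competitiveRatio p y' + ENNReal.ofReal
        (p ^ 4 * (1 - p) ^ 3 / (2 * ((competitiveRatio p y).toReal + p))) ≤
          competitiveRatio p y :=
  ⟨Pool.Agent.Y237.FL.gap hp0 hp1, Pool.Agent.Y237.FL.upper hp0 hp1,
    fun _ h1 h2 h3 => Pool.Agent.Y237.FL.improve_explicit hp0 hp1 h1 h2 h3⟩

end Pool.Agent.Results.MP_75ee99_lc.ExplicitGap
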